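import Pool.Agent.H509Z.QE.Clamp
import Pool.Agent.H101Z.NH.LO
import Pool.Agent.H566Z.NHLC

set_option autoImplicit false
set_option linter.unusedSectionVars false
set_option linter.unusedVariables false

/-!
Statements of the pieces of the unitary Kun-Thom theorem with an element outside the Kazhdan
group, and the orthogonal projection onto a star subalgebra of a matrix algebra.
-/

namespace Pool.Agent.H602Z.KT

open Matrix Finset Pool.Agent.H304Z.NH
open scoped MatrixOrder ComplexOrder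

section defs

variable {n : Type} [Fintype n] [DecidableEq n] {ι : Type} [Fintype ι] [DecidableEq ι]

/-- orthonormal basis of a star subalgebra for the Hilbert-Schmidt inner product -/
structure ONB (B : StarSubalgebra ℂ (Mat n)) (y : ι → Mat n) : Prop where
  mem : ∀ a, y a ∈ B
  orth : ∀ a b, trace ((y a)ᴴ * y b) = if a = b then 1 else 0
  span : ∀ x ∈ B, ∑ a, trace ((y a)ᴴ * x) • y a = x

/-- orthogonal projection onto the span of an orthonormal family -/
noncomputable def EB (y : ι → Mat n) (x : Mat n) : Mat n := ∑ a, trace ((y a)ᴴ * x) • y a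

/-- total squared distance of a family to the span -/
noncomputable def NB (y : ι → Mat n) {κ : Type} [Fintype κ] (x : κ → Mat n) : ℝ :=
  ∑ i, nsq (x i - EB y (x i))

end defs

/-- existence of orthonormal bases -/
def S_ONB : Prop :=
  ∀ (n : Type) [Fintype n] [DecidableEq n] (B : StarSubalgebra ℂ (Mat n)),
    ∃ (ι : Type) (_ : Fintype ι) (_ : DecidableEq ι) (y : ι → Mat n), ONB B y

/-- from contractions to families (random signs) -/
def S_FAM : Prop :=
  ∀ (M : ℕ) (C η : ℝ), 0 ≤ C → 0 < η → ∃ ε : ℝ, 0 < ε ∧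
    ∀ (n : Type) [Fintype n] [DecidableEq n] (G : Type) (u : G → Mat n) (S : Finset G),
      S.card ≤ M → (∀ g, IsU (u g)) →
    ∀ (B : StarSubalgebra ℂ (Mat n)) (ι : Type) [Fintype ι] [DecidableEq ι] (y : ι → Mat n),
      ONB B y →
      (∀ x : Mat n, xᴴ * x ≤ 1 → ∃ a ∈ B, nsq (x - a) ≤ C * en u S x + ε * Fintype.card n) →
      ∀ (κ : Type) [Fintype κ] (x : κ → Mat n), LL x ≤ 1 → RR x ≤ 1 →
        NB y x ≤ 16 * C * EE u S x + η * Fintype.card n

/-- the matrix core of the argument -/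
def S_CORE : Prop :=
  ∀ (M : ℕ) (C : ℝ), 0 ≤ C → ∃ ε : ℝ, 0 < ε ∧
    ∀ (n : Type) [Fintype n] [DecidableEq n] [Nonempty n]
      (B : StarSubalgebra ℂ (Mat n)) (ι : Type) [Fintype ι] [DecidableEq ι] (y : ι → Mat n),
      ONB B y →
    ∀ (J : Type) [Fintype J] (p : J → Mat n), (∀ j, IsProj (p j)) → ∑ j, p j ≤ 1 →
      (1 - ε) * Fintype.card n ≤ ∑ j, tr (p j) → NB y p ≤ ε * Fintype.card n →
    ∀ (G : Type) (u : G → Mat n) (T : Finset G) (t : G) (c : Mat n),
      T.card ≤ M → t ∈ T → (∀ g, IsU (u g)) → IsU c →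
      (∀ r ∈ T, ∑ j, nsq (cm (u r) (p j)) ≤ ε * Fintype.card n) →
      (∀ b : J → ι → Mat n, (∀ j a, b j a ∈ B) → (∀ j, LL (b j) ≤ 1) →
        RR (fun q : J × ι => p q.1 * b q.1 q.2) ≤ 1 →
        (∀ r ∈ T, NB y (fun q : J × ι => (u r)ᴴ * (p q.1 * b q.1 q.2) * u r) ≤
          ε * Fintype.card n) ∧
        NB y (fun q : J × ι => (u t)ᴴ * (p q.1 * b q.1 q.2) * (c * u t)) ≤ ε * Fintype.card n) →
      (∀ h : J → Mat n, (∀ j, (h j)ᴴ = h j ∧ p j * h j = h j ∧ h j * h j ≤ p j) →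
        ∃ k : J → ℝ, ∑ j, nsq (h j - k j • p j) ≤
          C * (∑ j, en u T (h j) + ε * Fintype.card n)) →
      nsq (EB y c) ≤ ε * Fintype.card n → False

/-- approximation of a group by unitary matrices with traces bounded by `τ` -/
def Micro (H : Type) [Group H] (τ : H → ℝ) : Prop :=
  ∀ (W : Finset H) (δ : ℝ), 0 < δ →
    ∃ (n : Type) (_ : Fintype n) (_ : DecidableEq n) (_ : Nonempty n) (u : H → Mat n),
      (∀ g, IsU (u g)) ∧ u 1 = 1 ∧
      ∀ g ∈ W, ∀ h ∈ W, nsq (df u g h) ≤ δ * Fintype.card n ∧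
        tr ((u g)ᴴ * u h) ≤ (τ (g⁻¹ * h) + δ) * Fintype.card n

/-- the unitary Kun-Thom theorem -/
def S_KT : Prop :=
  ∀ (G : Type) [Group G] (L : Subgroup G) (SG : Finset G) (SL : Finset L) (t : G),
    Kaz G SG → Subgroup.closure (SG : Set G) = ⊤ → Kaz L SL →
    Subgroup.closure (SL : Set L) = ⊤ →
    Subgroup.closure {r : G | ∀ g ∈ L, r * g * r⁻¹ ∈ L} = ⊤ → (∀ g ∈ L, t * g * t⁻¹ ∈ L) →
    ∀ (H : Type) [Group H] (φ : G →* H) (c : H) (τ : H → ℝ),
      (∀ g ∈ L, c * φ (t * g * t⁻¹) = φ (t * g * t⁻¹) * c) →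
      (∀ N : ℕ, ∃ l : Fin N → L, ∀ i j, i ≠ j →
        τ ((φ (l i) * c * (φ (l i))⁻¹)⁻¹ * (φ (l j) * c * (φ (l j))⁻¹)) ≤ 0) →
      Micro H τ → False

section basic

variable {n : Type} [Fintype n] [DecidableEq n] {ι : Type} [Fintype ι] [DecidableEq ι]
variable {B : StarSubalgebra ℂ (Mat n)} {y : ι → Mat n}

theorem star_mem' {x : Mat n} (hx : x ∈ B) : xᴴ ∈ B := star_mem (s := B) hx

theorem EB_mem (hy : ONB B y) (x : Mat n) : EB y x ∈ B :=
  sum_mem fun a _ => B.smul_mem (hy.mem a) _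

theorem EB_of_mem (hy : ONB B y) {x : Mat n} (hx : x ∈ B) : EB y x = x := hy.span x hx

theorem EB_add (x z : Mat n) : EB y (x + z) = EB y x + EB y z := by
  simp only [EB, Matrix.mul_add, trace_add, add_smul, sum_add_distrib]

theorem EB_sub (x z : Mat n) : EB y (x - z) = EB y x - EB y z := by
  simp only [EB, Matrix.mul_sub, trace_sub, sub_smul, sum_sub_distrib]

theorem trace_basis_EB (hy : ONB B y) (a : ι) (x : Mat n) :
    trace ((y a)ᴴ * EB y x) = trace ((y a)ᴴ * x) := by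
  rw [EB, Pool.Agent.H101Z.NH.trace_comb_right]
  simp [hy.orth]

/-- the residual is orthogonal to the algebra -/
theorem trace_mem_resid (hy : ONB B y) {b : Mat n} (hb : b ∈ B) (x : Mat n) :
    trace (bᴴ * (x - EB y x)) = 0 := by
  rw [← hy.span b hb, Pool.Agent.H101Z.NH.trace_comb_left]
  refine sum_eq_zero fun a _ => ?_
  rw [Matrix.mul_sub, trace_sub, trace_basis_EB hy, sub_self, mul_zero]

theorem trace_mem_EB (hy : ONB B y) {b : Mat n} (hb : b ∈ B) (x : Mat n) :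
    trace (bᴴ * EB y x) = trace (bᴴ * x) := by
  have h := trace_mem_resid hy hb x
  rw [Matrix.mul_sub, trace_sub, sub_eq_zero] at h
  exact h.symm

theorem tr_mem_resid (hy : ONB B y) {b : Mat n} (hb : b ∈ B) (x : Mat n) :
    tr (bᴴ * (x - EB y x)) = 0 := by
  rw [tr, trace_mem_resid hy hb, Complex.zero_re]

theorem pyth (hy : ONB B y) {b : Mat n} (hb : b ∈ B) (x : Mat n) :
    nsq (x - b) = nsq (x - EB y x) + nsq (EB y x - b) := by
  have e : x - b = (EB y x - b) + (x - EB y x) := by abel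
  rw [e, nsq_add, tr_mem_resid hy (sub_mem (EB_mem hy x) hb)]
  ring

theorem best (hy : ONB B y) {b : Mat n} (hb : b ∈ B) (x : Mat n) :
    nsq (x - EB y x) ≤ nsq (x - b) := by
  rw [pyth hy hb]
  linarith [nsq_nonneg (EB y x - b)]

theorem pyth0 (hy : ONB B y) (x : Mat n) : nsq x = nsq (x - EB y x) + nsq (EB y x) := by
  have := pyth hy (zero_mem B) x
  simpa using this

theorem nsq_EB_le (hy : ONB B y) (x : Mat n) : nsq (EB y x) ≤ nsq x := by
  rw [pyth0 hy x]
  linarith [nsq_nonneg (x - EB y x)]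

theorem nsq_resid_le (hy : ONB B y) (x : Mat n) : nsq (x - EB y x) ≤ nsq x := by
  rw [pyth0 hy x]
  linarith [nsq_nonneg (EB y x)]

theorem nsq_EB (hy : ONB B y) (x : Mat n) :
    nsq (EB y x) = ∑ a, ‖trace ((y a)ᴴ * x)‖ ^ 2 := by
  rw [nsq_eq, tr, trace_mem_EB hy (EB_mem hy x), EB, Pool.Agent.H101Z.NH.trace_comb_left,
    Complex.re_sum]
  refine sum_congr rfl fun a _ => ?_
  rw [Complex.star_def, Complex.conj_mul']
  norm_cast

theorem ONB.bes (hy : ONB B y) : Bes y := fun x => by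
  rw [← nsq_EB hy]
  exact nsq_EB_le hy x

theorem NB_nonneg {κ : Type} [Fintype κ] (x : κ → Mat n) : 0 ≤ NB y x :=
  sum_nonneg fun _ _ => nsq_nonneg _

end basic

end Pool.Agent.H602Z.KT
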